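import Mathlib

/-!
# Widths of sets in the Euclidean space: definitions only
-/

set_option autoImplicit false

namespace Pool.Agent.H11.SWD

/-- The Euclidean norm. -/
noncomputable def nm {n : ℕ} (x : EuclideanSpace ℝ (Fin n)) : ℝ := ‖x‖

/-- The scalar product. -/
noncomputable def ip {n : ℕ} (u x : EuclideanSpace ℝ (Fin n)) : ℝ := inner ℝ u x

/-- The width of `G` in the direction `u`: supremum minus infimum of `⟨u, x⟩` over `x` in `G`. -/
noncomputable def width {n : ℕ} (G : Set (EuclideanSpace ℝ (Fin n)))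
    (u : EuclideanSpace ℝ (Fin n)) : ℝ :=
  sSup (ip u '' G) - sInf (ip u '' G)

/-- `G` has smaller width than `F` in every direction. -/
def Smaller {n : ℕ} (G F : Set (EuclideanSpace ℝ (Fin n))) : Prop :=
  ∀ u : EuclideanSpace ℝ (Fin n), nm u = 1 → width G u < width F u

/-- `F` is a convex body: convex and compact, with nonempty interior. -/
def Body {n : ℕ} (F : Set (EuclideanSpace ℝ (Fin n))) : Prop :=
  Convex ℝ F ∧ IsCompact F ∧ (interior F).Nonempty

/-- The volume (Lebesgue measure). -/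
noncomputable def vol {n : ℕ} (A : Set (EuclideanSpace ℝ (Fin n))) : ℝ :=
  (MeasureTheory.volume A).toReal

/-- The set `a F - F` of all `a x - y` with `x` and `y` in `F`. -/
def mix {n : ℕ} (a : ℝ) (F : Set (EuclideanSpace ℝ (Fin n))) : Set (EuclideanSpace ℝ (Fin n)) :=
  {z | ∃ x ∈ F, ∃ y ∈ F, a • x - y = z}

/-- The convex hull of the finite set `S`. -/
def hull {n : ℕ} (S : Finset (EuclideanSpace ℝ (Fin n))) : Set (EuclideanSpace ℝ (Fin n)) :=
  convexHull ℝ (S : Set (EuclideanSpace ℝ (Fin n)))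

/-- The `G i` are pairwise disjoint with union `F`, each of smaller width than `F`. -/
def Parts {n N : ℕ} (G : Fin N → Set (EuclideanSpace ℝ (Fin n)))
    (F : Set (EuclideanSpace ℝ (Fin n))) : Prop :=
  (⋃ i, G i) = F ∧ (∀ i j, i ≠ j → Disjoint (G i) (G j)) ∧ ∀ i, Smaller (G i) F

end Pool.Agent.H11.SWD
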