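import Pool.Agent.H11.SWF.Main

/-!
# Parts of smaller width: the finite fractional cover (helper11)
-/

set_option autoImplicit false

open MeasureTheory Set
open scoped ENNReal NNReal Pointwise

namespace Pool.Agent.H11.SWF

open Pool.Agent.H96.SWP

/-- Finite fractional cover: finitely many parts of smaller width with weights `p j ≥ 0`, covering
every point of `F` with weight at least `1`, of total weight at most
`(1 + ε) vol (3F - F) / vol (F - F)`. -/
theorem fractional_finite {n : ℕ} {F : Set (EuclideanSpace ℝ (Fin n))} (hFc : Convex ℝ F)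
    (hF : IsCompact F) (hFi : (interior F).Nonempty) {ε : ℝ} (hε : 0 < ε) :
    ∃ (m : ℕ) (G : Fin m → Set (EuclideanSpace ℝ (Fin n))) (p : Fin m → ℝ),
      (∀ j, 0 ≤ p j ∧ G j ⊆ F ∧ Smaller (G j) F) ∧
      (∀ x ∈ F, 1 ≤ ∑ j, (G j).indicator (fun _ => p j) x) ∧
      (∑ j, p j) * (volume (F - F)).toReal ≤ (1 + ε) * (volume ((3:ℝ) • F - F)).toReal := by
  classical
  obtain ⟨C, hC⟩ : ∃ C : Set (EuclideanSpace ℝ (Fin n)), C = (2:ℝ)⁻¹ • (F - F) := ⟨_, rfl⟩
  obtain ⟨hCk, hCc, hC0, hCs, hCv, hCF, hFD, hD⟩ := half_facts hF hFc hFi hC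
  obtain ⟨hv1, hv3⟩ := vol_facts hFc hC
  have hCt : volume C < ⊤ := hCk.measure_lt_top
  have hFt : volume (F + C) < ⊤ := (hF.add hCk).measure_lt_top
  have hV0 : 0 < (volume C).toReal := ENNReal.toReal_pos hCv.ne' hCt.ne
  -- a ball inside `C`
  obtain ⟨ρ, hρ, hball⟩ : ∃ ρ : ℝ, 0 < ρ ∧ Metric.ball (0 : EuclideanSpace ℝ (Fin n)) ρ ⊆ C := by
    obtain ⟨x, hx⟩ := hFi
    obtain ⟨s, hs, hb⟩ := Metric.isOpen_iff.mp isOpen_interior x hx
    refine ⟨s / 2, by linarith, ?_⟩
    intro y hy
    rw [Metric.mem_ball, dist_zero_right] at hy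
    rw [hC]
    refine ⟨(2:ℝ) • y, ⟨x + (2:ℝ) • y, ?_, x, interior_subset hx, by simp⟩, by simp⟩
    apply interior_subset
    apply hb
    rw [Metric.mem_ball, dist_eq_norm, add_sub_cancel_left, norm_smul]
    norm_num
    linarith
  obtain ⟨r, hr0, hr1, hr⟩ : ∃ r : ℝ, 0 < r ∧ r < 1 ∧ 1 ≤ (1 + ε) * r ^ n := by
    have ht : Filter.Tendsto (fun r : ℝ => (1 + ε) * r ^ n)
        (nhdsWithin 1 (Iio 1)) (nhds ((1 + ε) * 1 ^ n)) := by
      apply Filter.Tendsto.mono_left _ nhdsWithin_le_nhds
      have : Continuous (fun r : ℝ => (1 + ε) * r ^ n) := by fun_prop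
      exact this.tendsto 1
    rw [one_pow, mul_one] at ht
    have h1 := ht.eventually (lt_mem_nhds (show (1:ℝ) < 1 + ε by linarith))
    obtain ⟨r, hr, hr2⟩ := (h1.and (Ioo_mem_nhdsLT (show (0:ℝ) < 1 by norm_num))).exists
    exact ⟨r, hr2.1, hr2.2, hr.le⟩
  obtain ⟨r', hrr', hr'1⟩ : ∃ r' : ℝ, r < r' ∧ r' < 1 := exists_between hr1
  have hrC : r • C ⊆ C := by
    have := smul_sub_self hCc hC0 (r := r) (s := 1) hr0.le hr1.le
    rwa [one_smul] at this
  have hrs : ∀ x ∈ r • C, -x ∈ r • C := by
    rintro _ ⟨y, hy, rfl⟩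
    exact ⟨-y, hCs y hy, by simp⟩
  have hrk : IsCompact (r • C) := hCk.smul r
  have hvr : (volume (r • C)).toReal = r ^ n * (volume C).toReal := by
    rw [Measure.addHaar_smul, finrank_euclideanSpace_fin, abs_of_nonneg (pow_nonneg hr0.le n),
      ENNReal.toReal_mul, ENNReal.toReal_ofReal (by positivity)]
  have hvr0 : 0 < (volume (r • C)).toReal := by
    rw [hvr]
    positivity
  set K : Set (EuclideanSpace ℝ (Fin n)) := F + r • C with hK
  have hKk : IsCompact K := hF.add hrk
  have hKt : volume K < ⊤ := hKk.measure_lt_top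
  -- a finite cover by small balls
  set η : ℝ := (r' - r) * ρ with hη
  have hη0 : 0 < η := mul_pos (by linarith) hρ
  obtain ⟨T, hTf, hTK⟩ := Metric.totallyBounded_iff.mp hKk.totallyBounded η hη0
  obtain ⟨m, t, ht⟩ : ∃ (m : ℕ) (t : Fin m → EuclideanSpace ℝ (Fin n)),
      K ⊆ ⋃ j, Metric.ball (t j) η := by
    obtain ⟨m, t, -, ht⟩ := Set.Finite.fin_param hTf
    refine ⟨m, t, fun x hx => ?_⟩
    obtain ⟨y, hy, hxy⟩ := mem_iUnion₂.mp (hTK hx)
    rw [← ht] at hy
    obtain ⟨j, rfl⟩ := hy
    exact mem_iUnion.mpr ⟨j, hxy⟩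
  set P : Fin m → Set (EuclideanSpace ℝ (Fin n)) := disjointed (fun j => Metric.ball (t j) η)
    with hP
  have hPm : ∀ j, MeasurableSet (P j) := fun j =>
    disjointedRec (f := fun j => Metric.ball (t j) η) (p := MeasurableSet)
      (fun _ _ h => h.diff Metric.isOpen_ball.measurableSet) Metric.isOpen_ball.measurableSet
  have hPd : Pairwise (Function.onFun Disjoint P) := disjoint_disjointed _
  have hPK : K ⊆ ⋃ j, P j := by
    rw [hP, iUnion_disjointed]
    exact ht
  have hPb : ∀ j, P j ⊆ Metric.ball (t j) η := fun j => disjointed_subset _ j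
  have hsum : ∀ A : Set (EuclideanSpace ℝ (Fin n)), MeasurableSet A → A ⊆ K →
      (volume A).toReal = ∑ j, (volume (A ∩ P j)).toReal := by
    intro A hA hAK
    have e : A = ⋃ j, A ∩ P j := by
      rw [← inter_iUnion]
      exact (inter_eq_self_of_subset_left (hAK.trans hPK)).symm
    have h1 : volume A = ∑ j, volume (A ∩ P j) := by
      conv_lhs => rw [e]
      rw [measure_iUnion, tsum_fintype]
      · intro i j hij
        exact (hPd hij).mono inter_subset_right inter_subset_right
      · exact fun j => hA.inter (hPm j)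
    rw [h1, ENNReal.toReal_sum]
    intro j _
    exact (lt_of_le_of_lt (measure_mono (inter_subset_left.trans hAK)) hKt).ne
  refine ⟨m, fun j => F ∩ {x | x - t j ∈ r' • C},
    fun j => (volume (K ∩ P j)).toReal / (volume (r • C)).toReal,
    fun j => ⟨by positivity, inter_subset_left, ?_⟩, ?_, ?_⟩
  · exact smaller_of_translate hF hFi hC (by linarith) hr'1 (c := t j) (fun x hx => hx.2)
  · intro x hx
    set A : Set (EuclideanSpace ℝ (Fin n)) := (fun s => x - s) ⁻¹' (r • C) with hA
    have hAm : MeasurableSet A := (measurable_const.sub measurable_id) hrk.measurableSet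
    have hAK : A ⊆ K := by
      intro s hs
      have hs' : x - s ∈ r • C := hs
      exact ⟨x, hx, -(x - s), hrs _ hs', by simp⟩
    have hvA : volume A = volume (r • C) :=
      (Measure.measurePreserving_sub_left volume x).measure_preimage
        hrk.measurableSet.nullMeasurableSet
    have h1 : ∀ j, (volume (A ∩ P j)).toReal / (volume (r • C)).toReal ≤
        (F ∩ {x | x - t j ∈ r' • C}).indicator
          (fun _ => (volume (K ∩ P j)).toReal / (volume (r • C)).toReal) x := by
      intro j
      rcases (A ∩ P j).eq_empty_or_nonempty with h0 | ⟨s, hsA, hsP⟩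
      · rw [h0, measure_empty, ENNReal.toReal_zero, zero_div]
        apply indicator_nonneg
        intro _ _
        positivity
      · have hmem : x ∈ F ∩ {x | x - t j ∈ r' • C} := by
          refine ⟨hx, ?_⟩
          have hs1 : x - s ∈ r • C := hsA
          have hs2 : t j - s ∈ (r' - r) • C := by
            have h3 : s ∈ Metric.ball (t j) η := hPb j hsP
            rw [Metric.mem_ball, dist_eq_norm] at h3
            have hpos : 0 < r' - r := by linarith
            refine ⟨(r' - r)⁻¹ • (t j - s), hball ?_, ?_⟩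
            · rw [Metric.mem_ball, dist_zero_right, norm_smul, norm_inv,
                Real.norm_of_nonneg hpos.le, norm_sub_rev, inv_mul_lt_iff₀ hpos]
              exact h3
            · simp only
              rw [smul_smul, mul_inv_cancel₀ hpos.ne', one_smul]
          have h4 := sub_mem_smul hCc hCs hr0.le (by linarith : (0:ℝ) ≤ r' - r) hs1 hs2
          have e : x - t j = x - s - (t j - s) := by abel
          show x - t j ∈ r' • C
          rw [e]
          have e2 : r + (r' - r) = r' := by ring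
          rwa [e2] at h4
        rw [indicator_of_mem hmem]
        apply div_le_div_of_nonneg_right _ hvr0.le
        apply ENNReal.toReal_mono
        · exact (lt_of_le_of_lt (measure_mono inter_subset_left) hKt).ne
        · exact measure_mono (inter_subset_inter_left _ hAK)
    calc (1:ℝ) = (volume A).toReal / (volume (r • C)).toReal := by
          rw [hvA, div_self hvr0.ne']
      _ = ∑ j, (volume (A ∩ P j)).toReal / (volume (r • C)).toReal := by
          rw [hsum A hAm hAK, Finset.sum_div]
      _ ≤ _ := Finset.sum_le_sum fun j _ => h1 j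
  · have h2 : ∑ j, (volume (K ∩ P j)).toReal / (volume (r • C)).toReal =
        (volume K).toReal / (volume (r • C)).toReal := by
      rw [← Finset.sum_div, ← hsum K hKk.measurableSet Subset.rfl]
    rw [h2, hvr, hv1, hv3, ENNReal.toReal_mul, ENNReal.toReal_mul, ENNReal.toReal_pow,
      ENNReal.toReal_ofNat]
    have h3 : (volume K).toReal ≤ (volume (F + C)).toReal := by
      apply ENNReal.toReal_mono hFt.ne
      apply measure_mono
      rw [hK]
      gcongr
    have hrn : 0 < r ^ n := pow_pos hr0 n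
    rw [div_mul_eq_mul_div, div_le_iff₀ (by positivity)]
    have h4 : (volume K).toReal * 1 ≤ (volume (F + C)).toReal * ((1 + ε) * r ^ n) := by
      apply mul_le_mul h3 hr (by norm_num) (by positivity)
    nlinarith [mul_le_mul_of_nonneg_left h4 (show (0:ℝ) ≤ 2 ^ n * (volume C).toReal by positivity)]

end Pool.Agent.H11.SWF
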