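import Pool.Agent.H96.SWP.Net

/-!
# Parts of smaller width: fractional form and polytopes (helper11)

For a convex body `F` in `ℝⁿ` with half difference body `C = ½(F - F)`, averaging over translates of
`r • C`, `r < 1`, gives for every finite weighted set `S ⊆ F` a subset of smaller width carrying the
share `vol C / vol (F + C) = vol (F - F) / vol (3F - F) ≥ 2⁻ⁿ` of the weight.
-/

set_option autoImplicit false

open MeasureTheory Set
open scoped ENNReal NNReal Pointwise

namespace Pool.Agent.H11.SWF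

open Pool.Agent.H96.SWP

/-- `G` has strictly smaller width than `F` in every direction (width = supremum minus infimum of
the linear function `x ↦ ⟨u, x⟩`). -/
def Smaller {n : ℕ} (G F : Set (EuclideanSpace ℝ (Fin n))) : Prop :=
  ∀ u : EuclideanSpace ℝ (Fin n), ‖u‖ = 1 →
    sSup ((fun x => inner ℝ u x) '' G) - sInf ((fun x => inner ℝ u x) '' G)
      < sSup ((fun x => inner ℝ u x) '' F) - sInf ((fun x => inner ℝ u x) '' F)

/-- A spread bound. -/
theorem spread_le {α : Type*} {G : Set α} {f : α → ℝ} {B : ℝ} (h0 : G.Nonempty)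
    (h : ∀ x ∈ G, ∀ y ∈ G, f x - f y ≤ B) : sSup (f '' G) - sInf (f '' G) ≤ B := by
  have h1 : ∀ x ∈ G, f x - B ≤ sInf (f '' G) := by
    intro x hx
    apply le_csInf (h0.image f)
    rintro _ ⟨y, hy, rfl⟩
    linarith [h x hx y hy]
  have h2 : sSup (f '' G) ≤ sInf (f '' G) + B := by
    apply csSup_le (h0.image f)
    rintro _ ⟨x, hx, rfl⟩
    linarith [h1 x hx]
  linarith

/-- The width of a convex body is positive. -/
theorem width_pos {n : ℕ} {F : Set (EuclideanSpace ℝ (Fin n))} (hF : IsCompact F)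
    (hFi : (interior F).Nonempty) {u : EuclideanSpace ℝ (Fin n)} (hu : ‖u‖ = 1) :
    sInf ((fun x => inner ℝ u x) '' F) < sSup ((fun x => (inner ℝ u x : ℝ)) '' F) := by
  set f : EuclideanSpace ℝ (Fin n) → ℝ := fun x => inner ℝ u x with hf
  have hfc : Continuous f := by
    rw [hf]
    fun_prop
  have hcF : IsCompact (f '' F) := hF.image hfc
  have hMF : ∀ z ∈ F, f z ≤ sSup (f '' F) :=
    fun z hz => le_csSup hcF.bddAbove (mem_image_of_mem f hz)
  have hmF : ∀ z ∈ F, sInf (f '' F) ≤ f z :=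
    fun z hz => csInf_le hcF.bddBelow (mem_image_of_mem f hz)
  obtain ⟨x, hx⟩ := hFi
  obtain ⟨s, hs, hball⟩ := Metric.isOpen_iff.mp isOpen_interior x hx
  have hxF : x ∈ F := interior_subset hx
  have hyF : x + (s / 2) • u ∈ F := by
    apply interior_subset
    apply hball
    rw [Metric.mem_ball, dist_eq_norm, add_sub_cancel_left, norm_smul, hu, mul_one,
      Real.norm_of_nonneg (by positivity)]
    linarith
  have e : f (x + (s / 2) • u) = f x + s / 2 := by
    rw [hf]
    simp only [inner_add_right, inner_smul_right, real_inner_self_eq_norm_sq, hu]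
    ring
  have h1 := hMF _ hyF
  have h2 := hmF _ hxF
  rw [e] at h1
  linarith

/-- A subset of `F` contained in a translate of `r • ½(F - F)`, `r < 1`, has smaller width. -/
theorem smaller_of_translate {n : ℕ} {F C : Set (EuclideanSpace ℝ (Fin n))} (hF : IsCompact F)
    (hFi : (interior F).Nonempty) (hC : C = (2:ℝ)⁻¹ • (F - F)) {r : ℝ} (hr : 0 ≤ r) (hr1 : r < 1)
    {G : Set (EuclideanSpace ℝ (Fin n))} {c : EuclideanSpace ℝ (Fin n)}
    (hG : ∀ x ∈ G, x - c ∈ r • C) : Smaller G F := by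
  intro u hu
  have hpos := width_pos hF hFi hu
  set f : EuclideanSpace ℝ (Fin n) → ℝ := fun x => inner ℝ u x with hf
  have hfc : Continuous f := by
    rw [hf]
    fun_prop
  have hcF : IsCompact (f '' F) := hF.image hfc
  set M : ℝ := sSup (f '' F) with hM
  set m : ℝ := sInf (f '' F) with hm
  have hMF : ∀ z ∈ F, f z ≤ M := fun z hz => le_csSup hcF.bddAbove (mem_image_of_mem f hz)
  have hmF : ∀ z ∈ F, m ≤ f z := fun z hz => csInf_le hcF.bddBelow (mem_image_of_mem f hz)
  rcases G.eq_empty_or_nonempty with h0 | h0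
  · rw [h0, image_empty, Real.sSup_empty, Real.sInf_empty]
    linarith
  have hval : ∀ x ∈ G, ∃ w, f x = f c + r * w ∧ -((M - m) / 2) ≤ w ∧ w ≤ (M - m) / 2 := by
    intro x hx
    have h1 := hG x hx
    rw [hC] at h1
    obtain ⟨_, ⟨_, ⟨a, ha, b, hb, rfl⟩, rfl⟩, h2⟩ := h1
    refine ⟨(f a - f b) / 2, ?_, ?_, ?_⟩
    · have h3 : x = c + r • ((2:ℝ)⁻¹ • (a - b)) := by
        simp only at h2
        rw [h2]
        abel
      rw [h3, hf]
      simp only [inner_add_right, inner_smul_right, inner_sub_right]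
      ring
    · linarith [hmF a ha, hMF b hb]
    · linarith [hMF a ha, hmF b hb]
  have hdiff : ∀ x ∈ G, ∀ y ∈ G, f x - f y ≤ r * (M - m) := by
    intro x hx y hy
    obtain ⟨w, hw, -, hw2⟩ := hval x hx
    obtain ⟨v, hv, hv1, -⟩ := hval y hy
    rw [hw, hv]
    nlinarith [mul_le_mul_of_nonneg_left hw2 hr, mul_le_mul_of_nonneg_left hv1 hr]
  have h3 : r * (M - m) < 1 * (M - m) := mul_lt_mul_of_pos_right hr1 (by linarith)
  linarith [spread_le h0 hdiff]

variable {E : Type*} [NormedAddCommGroup E] [InnerProductSpace ℝ E] [FiniteDimensional ℝ E]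
  [MeasurableSpace E] [BorelSpace E]

open Classical in
/-- Averaging with weights: some translate of `D` carries a fair share of the weight of `U`. -/
theorem exists_center_w {F D : Set E} (hD : IsCompact D)
    (hsym : ∀ x ∈ D, -x ∈ D) (U : Finset E) (hU : ∀ s ∈ U, s ∈ F) (w : E → ℝ≥0∞) :
    ∃ t : E, (∑ s ∈ U, w s) * volume D ≤
      (∑ s ∈ U.filter (fun s => s - t ∈ D), w s) * volume (F + D) := by
  set cnt : E → ℝ≥0∞ := fun t => ∑ s ∈ U.filter (fun s => s - t ∈ D), w s with hcnt
  obtain ⟨t0, ht0⟩ : ∃ t0, ∀ t, cnt t ≤ cnt t0 := by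
    have hfin : (range cnt).Finite := by
      apply (Set.finite_range (fun A : {A // A ∈ U.powerset} => ∑ s ∈ A.1, w s)).subset
      rintro _ ⟨t, rfl⟩
      exact ⟨⟨U.filter (fun s => s - t ∈ D), by simp⟩, rfl⟩
    obtain ⟨m, ⟨t0, rfl⟩, hm⟩ := Set.exists_max_image (range cnt) id hfin (range_nonempty cnt)
    exact ⟨t0, fun t => hm _ (mem_range_self t)⟩
  refine ⟨t0, ?_⟩
  have hDm : MeasurableSet D := hD.measurableSet
  have hms : ∀ s : E, MeasurableSet ((fun t => s - t) ⁻¹' D) := fun s =>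
    (measurable_const.sub measurable_id) hDm
  have e1 : ∀ s ∈ U, ∫⁻ t in F + D, w s * ((fun t => s - t) ⁻¹' D).indicator (1 : E → ℝ≥0∞) t
      = w s * volume D := by
    intro s hs
    rw [lintegral_const_mul _ (measurable_one.indicator (hms s)),
      lintegral_indicator_one (hms s), Measure.restrict_apply (hms s)]
    have hsub : (fun t => s - t) ⁻¹' D ⊆ F + D := by
      intro t ht
      have ht' : s - t ∈ D := ht
      refine ⟨s, hU s hs, -(s - t), hsym _ ht', ?_⟩
      simp
    rw [inter_eq_self_of_subset_left hsub]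
    congr 1
    exact (Measure.measurePreserving_sub_left volume s).measure_preimage hDm.nullMeasurableSet
  have e2 : ∀ t : E, ∑ s ∈ U, w s * ((fun t => s - t) ⁻¹' D).indicator (1 : E → ℝ≥0∞) t
      = cnt t := by
    intro t
    rw [hcnt]
    simp only [indicator_apply, mem_preimage, Pi.one_apply, mul_ite, mul_one, mul_zero]
    rw [Finset.sum_filter]
  calc (∑ s ∈ U, w s) * volume D
      = ∑ s ∈ U, ∫⁻ t in F + D, w s * ((fun t => s - t) ⁻¹' D).indicator (1 : E → ℝ≥0∞) t := by
        rw [Finset.sum_congr rfl e1, Finset.sum_mul]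
    _ = ∫⁻ t in F + D, ∑ s ∈ U, w s * ((fun t => s - t) ⁻¹' D).indicator (1 : E → ℝ≥0∞) t := by
        rw [lintegral_finsetSum]
        intro s _
        exact (measurable_one.indicator (hms s)).const_mul _
    _ = ∫⁻ t in F + D, cnt t := by
        simp_rw [e2]
    _ ≤ ∫⁻ _ in F + D, cnt t0 := by
        apply lintegral_mono
        intro t
        exact ht0 t
    _ = cnt t0 * volume (F + D) := by
        rw [setLIntegral_const]

/-- Volumes of `½(F - F)` and `F + ½(F - F)`. -/
theorem vol_facts {n : ℕ} {F C : Set (EuclideanSpace ℝ (Fin n))} (hFc : Convex ℝ F)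
    (hC : C = (2:ℝ)⁻¹ • (F - F)) :
    volume (F - F) = 2 ^ n * volume C ∧ volume ((3:ℝ) • F - F) = 2 ^ n * volume (F + C) := by
  have h2 : (2:ℝ) • C = F - F := by
    rw [hC, smul_smul]
    norm_num
  have h3F : (3:ℝ) • F - F = (2:ℝ) • (F + C) := by
    have h1 : (3:ℝ) • F = (2:ℝ) • F + F := by
      have := hFc.add_smul (p := 2) (q := 1) (by norm_num) (by norm_num)
      rw [one_smul] at this
      rw [← this]
      norm_num
    rw [smul_add, h2, h1, add_sub_assoc]
  have hs : ∀ A : Set (EuclideanSpace ℝ (Fin n)), volume ((2:ℝ) • A) = 2 ^ n * volume A := by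
    intro A
    rw [Measure.addHaar_smul]
    simp
  rw [← h2, h3F, hs, hs]
  exact ⟨rfl, rfl⟩

/-- Weighted form: a finite weighted set in `F` has a subset of smaller width carrying the share
`vol (F - F) / vol (3F - F)` of the weight. -/
theorem weighted {n : ℕ} {F : Set (EuclideanSpace ℝ (Fin n))} (hFc : Convex ℝ F)
    (hF : IsCompact F) (hFi : (interior F).Nonempty) (S : Finset (EuclideanSpace ℝ (Fin n)))
    (hS : ∀ s ∈ S, s ∈ F) (w : EuclideanSpace ℝ (Fin n) → ℝ) (hw : ∀ s ∈ S, 0 ≤ w s) :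
    ∃ A : Finset (EuclideanSpace ℝ (Fin n)), A ⊆ S ∧ Smaller (A : Set _) F ∧
      (volume (F - F)).toReal * ∑ s ∈ S, w s ≤ (volume ((3:ℝ) • F - F)).toReal * ∑ s ∈ A, w s := by
  classical
  obtain ⟨C, hC⟩ : ∃ C : Set (EuclideanSpace ℝ (Fin n)), C = (2:ℝ)⁻¹ • (F - F) := ⟨_, rfl⟩
  obtain ⟨hCk, hCc, hC0, hCs, hCv, hCF, hFD, hD⟩ := half_facts hF hFc hFi hC
  obtain ⟨hv1, hv3⟩ := vol_facts hFc hC
  have hne : (S.powerset.filter
      (fun A : Finset (EuclideanSpace ℝ (Fin n)) => Smaller (A : Set _) F)).Nonempty := by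
    refine ⟨∅, ?_⟩
    rw [Finset.mem_filter]
    refine ⟨by simp, ?_⟩
    exact smaller_of_translate hF hFi hC (r := 0) (c := 0) le_rfl (by norm_num) (by simp)
  obtain ⟨A, hA, hmax⟩ := Finset.exists_max_image _ (fun A => ∑ s ∈ A, w s) hne
  rw [Finset.mem_filter, Finset.mem_powerset] at hA
  refine ⟨A, hA.1, hA.2, ?_⟩
  have hFt : volume (F + C) < ⊤ := (hF.add hCk).measure_lt_top
  have hCt : volume C < ⊤ := hCk.measure_lt_top
  have key : ∀ r : ℝ, 0 < r → r < 1 →
      ((volume C).toReal * ∑ s ∈ S, w s) * r ^ n ≤ (volume (F + C)).toReal * ∑ s ∈ A, w s := by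
    intro r hr0 hr1
    have hrC : r • C ⊆ C := by
      have := smul_sub_self hCc hC0 (r := r) (s := 1) hr0.le hr1.le
      rwa [one_smul] at this
    obtain ⟨t, ht⟩ := exists_center_w (F := F) (D := r • C) (hCk.smul r)
      (by
        rintro _ ⟨y, hy, rfl⟩
        exact ⟨-y, hCs y hy, by simp⟩) S hS (fun s => ENNReal.ofReal (w s))
    set B := S.filter (fun s => s - t ∈ r • C) with hB
    have hBs : Smaller (B : Set (EuclideanSpace ℝ (Fin n))) F := by
      apply smaller_of_translate hF hFi hC hr0.le hr1 (c := t)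
      intro x hx
      rw [hB, Finset.mem_coe, Finset.mem_filter] at hx
      exact hx.2
    have hBA : ∑ s ∈ B, w s ≤ ∑ s ∈ A, w s :=
      hmax B (Finset.mem_filter.mpr ⟨Finset.mem_powerset.mpr (Finset.filter_subset _ _), hBs⟩)
    have hB0 : ∀ s ∈ B, 0 ≤ w s := fun s hs => hw s (Finset.mem_filter.mp hs).1
    rw [← ENNReal.ofReal_sum_of_nonneg hw, ← ENNReal.ofReal_sum_of_nonneg hB0,
      Measure.addHaar_smul, finrank_euclideanSpace_fin, abs_of_nonneg (pow_nonneg hr0.le n)] at ht
    have ht2 : ENNReal.ofReal (∑ s ∈ S, w s) * (ENNReal.ofReal (r ^ n) * volume C) ≤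
        ENNReal.ofReal (∑ s ∈ B, w s) * volume (F + C) :=
      ht.trans (by gcongr)
    have ht3 := ENNReal.toReal_mono (ENNReal.mul_lt_top ENNReal.ofReal_lt_top hFt).ne ht2
    rw [ENNReal.toReal_mul, ENNReal.toReal_mul, ENNReal.toReal_mul,
      ENNReal.toReal_ofReal (Finset.sum_nonneg hw), ENNReal.toReal_ofReal (by positivity),
      ENNReal.toReal_ofReal (Finset.sum_nonneg hB0)] at ht3
    calc ((volume C).toReal * ∑ s ∈ S, w s) * r ^ n
        = (∑ s ∈ S, w s) * (r ^ n * (volume C).toReal) := by ring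
      _ ≤ (∑ s ∈ B, w s) * (volume (F + C)).toReal := ht3
      _ ≤ (∑ s ∈ A, w s) * (volume (F + C)).toReal := by gcongr
      _ = (volume (F + C)).toReal * ∑ s ∈ A, w s := by ring
  have hlim : (volume C).toReal * ∑ s ∈ S, w s ≤ (volume (F + C)).toReal * ∑ s ∈ A, w s := by
    have ht : Filter.Tendsto (fun r : ℝ => ((volume C).toReal * ∑ s ∈ S, w s) * r ^ n)
        (nhdsWithin 1 (Iio 1)) (nhds (((volume C).toReal * ∑ s ∈ S, w s) * 1 ^ n)) := by
      apply Filter.Tendsto.mono_left _ nhdsWithin_le_nhds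
      have : Continuous (fun r : ℝ => ((volume C).toReal * ∑ s ∈ S, w s) * r ^ n) := by fun_prop
      exact this.tendsto 1
    rw [one_pow, mul_one] at ht
    apply le_of_tendsto ht
    filter_upwards [Ioo_mem_nhdsLT (show (0:ℝ) < 1 by norm_num)] with r hr
    exact key r hr.1 hr.2
  rw [hv1, hv3, ENNReal.toReal_mul, ENNReal.toReal_mul, mul_assoc, mul_assoc]
  gcongr

/-- Fractional cover: a measure on a family of compact parts of smaller width, covering every point
of `F` with mass `1`, of total mass at most `(1 + ε) vol (3F - F) / vol (F - F)`. -/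
theorem fractional {n : ℕ} {F : Set (EuclideanSpace ℝ (Fin n))} (hFc : Convex ℝ F)
    (hF : IsCompact F) (hFi : (interior F).Nonempty) {ε : ℝ} (hε : 0 < ε) :
    ∃ (ν : Measure (EuclideanSpace ℝ (Fin n)))
      (G : EuclideanSpace ℝ (Fin n) → Set (EuclideanSpace ℝ (Fin n))),
      (∀ t, G t ⊆ F ∧ IsCompact (G t) ∧ Smaller (G t) F) ∧
      (∀ x ∈ F, ν {t | x ∈ G t} = 1) ∧
      ν univ * volume (F - F) ≤ ENNReal.ofReal (1 + ε) * volume ((3:ℝ) • F - F) := by
  obtain ⟨C, hC⟩ : ∃ C : Set (EuclideanSpace ℝ (Fin n)), C = (2:ℝ)⁻¹ • (F - F) := ⟨_, rfl⟩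
  obtain ⟨hCk, hCc, hC0, hCs, hCv, hCF, hFD, hD⟩ := half_facts hF hFc hFi hC
  obtain ⟨hv1, hv3⟩ := vol_facts hFc hC
  have hCt : volume C < ⊤ := hCk.measure_lt_top
  obtain ⟨r, hr0, hr1, hr⟩ : ∃ r : ℝ, 0 < r ∧ r < 1 ∧ 1 ≤ (1 + ε) * r ^ n := by
    have ht : Filter.Tendsto (fun r : ℝ => (1 + ε) * r ^ n)
        (nhdsWithin 1 (Iio 1)) (nhds ((1 + ε) * 1 ^ n)) := by
      apply Filter.Tendsto.mono_left _ nhdsWithin_le_nhds
      have : Continuous (fun r : ℝ => (1 + ε) * r ^ n) := by fun_prop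
      exact this.tendsto 1
    rw [one_pow, mul_one] at ht
    have h1 := ht.eventually (lt_mem_nhds (show (1:ℝ) < 1 + ε by linarith))
    obtain ⟨r, hr, hr2⟩ := (h1.and (Ioo_mem_nhdsLT (show (0:ℝ) < 1 by norm_num))).exists
    exact ⟨r, hr2.1, hr2.2, hr.le⟩
  have hrC : r • C ⊆ C := by
    have := smul_sub_self hCc hC0 (r := r) (s := 1) hr0.le hr1.le
    rwa [one_smul] at this
  have hrs : ∀ x ∈ r • C, -x ∈ r • C := by
    rintro _ ⟨y, hy, rfl⟩
    exact ⟨-y, hCs y hy, by simp⟩
  have hrk : IsCompact (r • C) := hCk.smul r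
  have hvr : volume (r • C) = ENNReal.ofReal (r ^ n) * volume C := by
    rw [Measure.addHaar_smul, finrank_euclideanSpace_fin, abs_of_nonneg (pow_nonneg hr0.le n)]
  have hvr0 : volume (r • C) ≠ 0 := by
    rw [hvr]
    apply mul_ne_zero _ hCv.ne'
    simp only [ne_eq, ENNReal.ofReal_eq_zero, not_le]
    positivity
  have hvrt : volume (r • C) ≠ ⊤ := hrk.measure_lt_top.ne
  refine ⟨(volume (r • C))⁻¹ • volume.restrict (F + r • C), fun t => F ∩ {x | x - t ∈ r • C},
    fun t => ⟨inter_subset_left, ?_, ?_⟩, ?_, ?_⟩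
  · apply hF.inter_right
    exact hrk.isClosed.preimage (continuous_id.sub continuous_const)
  · exact smaller_of_translate hF hFi hC hr0.le hr1 (c := t) (fun x hx => hx.2)
  · intro x hx
    have hset : {t | x ∈ F ∩ {x | x - t ∈ r • C}} = (fun t => x - t) ⁻¹' (r • C) := by
      ext t
      simp [hx]
    have hms : MeasurableSet ((fun t => x - t) ⁻¹' (r • C)) :=
      (measurable_const.sub measurable_id) hrk.measurableSet
    have hsub : (fun t => x - t) ⁻¹' (r • C) ⊆ F + r • C := by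
      intro t ht
      have ht' : x - t ∈ r • C := ht
      exact ⟨x, hx, -(x - t), hrs _ ht', by simp⟩
    rw [hset, Measure.smul_apply, Measure.restrict_apply hms, inter_eq_self_of_subset_left hsub,
      (Measure.measurePreserving_sub_left volume x).measure_preimage
        hrk.measurableSet.nullMeasurableSet, smul_eq_mul, ENNReal.inv_mul_cancel hvr0 hvrt]
  · rw [Measure.smul_apply, Measure.restrict_apply_univ, smul_eq_mul, hv1, hv3]
    have h1 : volume C ≤ ENNReal.ofReal (1 + ε) * volume (r • C) := by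
      rw [hvr, ← mul_assoc, ← ENNReal.ofReal_mul (by positivity)]
      calc volume C = 1 * volume C := (one_mul _).symm
        _ ≤ ENNReal.ofReal ((1 + ε) * r ^ n) * volume C := by
          gcongr
          rw [← ENNReal.ofReal_one]
          exact ENNReal.ofReal_le_ofReal hr
    have h2 : volume (F + r • C) ≤ volume (F + C) := by
      apply measure_mono
      gcongr
    calc (volume (r • C))⁻¹ * volume (F + r • C) * (2 ^ n * volume C)
        ≤ (volume (r • C))⁻¹ * volume (F + C) *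
            (2 ^ n * (ENNReal.ofReal (1 + ε) * volume (r • C))) := by gcongr
      _ = ((volume (r • C))⁻¹ * volume (r • C)) *
            (ENNReal.ofReal (1 + ε) * (2 ^ n * volume (F + C))) := by ring
      _ = ENNReal.ofReal (1 + ε) * (2 ^ n * volume (F + C)) := by
          rw [ENNReal.inv_mul_cancel hvr0 hvrt, one_mul]

end Pool.Agent.H11.SWF
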