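import Pool.Agent.H11.SWF.Main

/-!
# Parts of smaller width: polytopes (helper11)
-/

set_option autoImplicit false

open MeasureTheory Set
open scoped ENNReal NNReal Pointwise

namespace Pool.Agent.H11.SWF

open Pool.Agent.H96.SWP

/-- Greedy choice of parts, each step taking the guaranteed number of points. -/
theorem greedy_parts {α : Type*} [DecidableEq α] {N : ℕ} {S : Finset α}
    {P : Finset α → Prop} (hmono : ∀ A B : Finset α, A ⊆ B → P B → P A)
    (h : ∀ U : Finset α, U ⊆ S → ∃ A : Finset α, A ⊆ U ∧ P A ∧ U.card ≤ N * A.card) :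
    ∀ v : ℕ, ∀ U : Finset α, U ⊆ S → U.card = v → ∃ (m : ℕ) (A : Fin m → Finset α),
      (m : ℝ) ≤ ∑ i ∈ Finset.range v, 1 / (((i / N : ℕ) : ℝ) + 1) ∧ (∀ i, A i ⊆ U) ∧
        (∀ s ∈ U, ∃ i, s ∈ A i) ∧ ∀ i, P (A i) := by
  intro v
  induction v using Nat.strong_induction_on with
  | _ v ih =>
    intro U hU hv
    rcases Nat.eq_zero_or_pos v with h0 | h0
    · subst h0
      rw [Finset.card_eq_zero] at hv
      subst hv
      exact ⟨0, fun _ => ∅, by simp, fun i => i.elim0, by simp, fun i => i.elim0⟩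
    · obtain ⟨A, hAU, hPA, hA⟩ := h U hU
      set j := (v - 1) / N with hj
      have hjA : j + 1 ≤ A.card := by
        have h1 : N * j ≤ v - 1 := Nat.mul_div_le _ _
        have h2 : N * j < N * A.card := by omega
        exact Nat.lt_of_mul_lt_mul_left h2
      obtain ⟨B, hBA, hB⟩ := Finset.exists_subset_card_eq hjA
      have hBU : B ⊆ U := hBA.trans hAU
      have hcard : (U \ B).card = v - (j + 1) := by
        rw [Finset.card_sdiff_of_subset hBU, hv, hB]
      have hjv : j + 1 ≤ v := by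
        rw [← hv]
        exact hjA.trans (Finset.card_le_card hAU)
      obtain ⟨m, D, hm, hD1, hD2, hD3⟩ := ih (v - (j + 1)) (Nat.sub_lt h0 (Nat.succ_pos j)) (U \ B)
        (Finset.sdiff_subset.trans hU) hcard
      refine ⟨m + 1, Fin.cons B D, ?_, ?_, ?_, ?_⟩
      · obtain ⟨v', hv'⟩ : ∃ v', v = v' + (j + 1) := ⟨v - (j + 1), by omega⟩
        have hvv : v - (j + 1) = v' := by omega
        rw [hvv] at hm
        have e : ∑ i ∈ Finset.range v, 1 / (((i / N : ℕ) : ℝ) + 1) =
            ∑ i ∈ Finset.range v', 1 / (((i / N : ℕ) : ℝ) + 1) +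
              ∑ i ∈ Finset.range (j + 1), 1 / ((((v' + i) / N : ℕ) : ℝ) + 1) := by
          rw [hv', Finset.sum_range_add]
        have h1 : ∑ _i ∈ Finset.range (j + 1), 1 / ((j : ℝ) + 1) ≤
            ∑ i ∈ Finset.range (j + 1), 1 / ((((v' + i) / N : ℕ) : ℝ) + 1) := by
          apply Finset.sum_le_sum
          intro i hi
          rw [Finset.mem_range] at hi
          apply one_div_le_one_div_of_le (by positivity)
          have : (v' + i) / N ≤ j := by
            rw [hj]
            apply Nat.div_le_div_right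
            omega
          have h3 : (((v' + i) / N : ℕ) : ℝ) ≤ (j : ℝ) := by exact_mod_cast this
          linarith
        have h2 : ∑ _i ∈ Finset.range (j + 1), 1 / ((j : ℝ) + 1) = 1 := by
          rw [Finset.sum_const, Finset.card_range, nsmul_eq_mul]
          push_cast
          field_simp
        rw [e]
        push_cast
        linarith
      · intro i
        refine Fin.cases ?_ (fun i => ?_) i
        · simpa using hBU
        · simpa using (hD1 i).trans Finset.sdiff_subset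
      · intro s hs
        by_cases hsB : s ∈ B
        · exact ⟨0, by simpa using hsB⟩
        · obtain ⟨i, hi⟩ := hD2 s (Finset.mem_sdiff.mpr ⟨hs, hsB⟩)
          exact ⟨i.succ, by simpa using hi⟩
      · intro i
        refine Fin.cases ?_ (fun i => ?_) i
        · simpa using hmono B A hBA hPA
        · simpa using hD3 i

theorem sum_blocks {N : ℕ} (hN : 0 < N) (k : ℕ) :
    ∑ i ∈ Finset.range (k * N), 1 / (((i / N : ℕ) : ℝ) + 1) =
      N * ∑ j ∈ Finset.range k, 1 / ((j : ℝ) + 1) := by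
  induction k with
  | zero => simp
  | succ k ih =>
    rw [Nat.succ_mul, Finset.sum_range_add, ih, Finset.sum_range_succ, mul_add]
    congr 1
    have : ∀ i ∈ Finset.range N, 1 / ((((k * N + i) / N : ℕ) : ℝ) + 1) = 1 / ((k : ℝ) + 1) := by
      intro i hi
      rw [Finset.mem_range] at hi
      have : (k * N + i) / N = k := by
        rw [Nat.div_eq_iff hN]
        constructor
        · omega
        · have : k * N + i ≤ k * N + N - 1 := by omega
          linarith
      rw [this]
    rw [Finset.sum_congr rfl this, Finset.sum_const, Finset.card_range, nsmul_eq_mul]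

/-- Smaller width passes to subsets. -/
theorem Smaller.mono {n : ℕ} {A B F : Set (EuclideanSpace ℝ (Fin n))} (hAB : A ⊆ B)
    (hB : Bornology.IsBounded B) (hF : IsCompact F) (hFi : (interior F).Nonempty)
    (h : Smaller B F) : Smaller A F := by
  intro u hu
  rcases A.eq_empty_or_nonempty with h0 | h0
  · rw [h0, image_empty, Real.sSup_empty, Real.sInf_empty]
    have := width_pos hF hFi hu
    linarith
  have hb : Bornology.IsBounded ((fun x => (inner ℝ u x : ℝ)) '' B) :=
    ((innerSL ℝ u).lipschitz.isBounded_image hB)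
  have h1 := csSup_le_csSup hb.bddAbove (h0.image _) (image_mono (f := fun x => (inner ℝ u x : ℝ)) hAB)
  have h2 := csInf_le_csInf hb.bddBelow (h0.image _) (image_mono (f := fun x => (inner ℝ u x : ℝ)) hAB)
  have h3 := h u hu
  linarith

/-- A cover of the points `S` by sets of smaller width than `conv S` gives a partition of `conv S`
into as many sets of smaller width. -/
theorem hull_parts {n : ℕ} {S : Finset (EuclideanSpace ℝ (Fin n))}
    {F : Set (EuclideanSpace ℝ (Fin n))} (hSF : convexHull ℝ (S : Set _) = F)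
    (hF : IsCompact F) (hFi : (interior F).Nonempty) {m : ℕ}
    (A : Fin m → Finset (EuclideanSpace ℝ (Fin n))) (hAS : ∀ i, A i ⊆ S)
    (hcov : ∀ s ∈ S, ∃ i, s ∈ A i) (hA : ∀ i, Smaller (A i : Set _) F) :
    ∃ G : Fin m → Set (EuclideanSpace ℝ (Fin n)), (⋃ i, G i) = F ∧
      (∀ i j, i ≠ j → Disjoint (G i) (G j)) ∧ ∀ i, Smaller (G i) F := by
  classical
  set N := S.card with hN
  have hSne : S.Nonempty := by
    rw [Finset.nonempty_iff_ne_empty]
    rintro rfl
    rw [← hSF] at hFi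
    simp at hFi
  have hN0 : (0:ℝ) < N := by
    rw [hN]
    exact_mod_cast Finset.card_pos.mpr hSne
  have hSF' : ∀ s ∈ S, s ∈ F := fun s hs => by
    rw [← hSF]
    exact subset_convexHull ℝ _ hs
  set K : Fin m → Set (EuclideanSpace ℝ (Fin n)) := fun i =>
    {x | ∃ β : EuclideanSpace ℝ (Fin n) → ℝ, (∀ s ∈ S, 0 ≤ β s) ∧ ∑ s ∈ S, β s = 1 ∧
      ∑ s ∈ S, β s • s = x ∧ ∃ v ∈ A i, 1 / (N:ℝ) ≤ β v} with hK
  have hKF : ∀ i, K i ⊆ F := by
    rintro i _ ⟨β, h1, h2, rfl, -⟩
    rw [← hSF]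
    rw [Finset.mem_convexHull']
    exact ⟨β, h1, h2, rfl⟩
  have hKsm : ∀ i, ∀ G : Set (EuclideanSpace ℝ (Fin n)), G ⊆ K i → Smaller G F := by
    intro i G hG u hu
    have hpos := width_pos hF hFi hu
    set f : EuclideanSpace ℝ (Fin n) → ℝ := fun x => inner ℝ u x with hf
    have hfc : Continuous f := by
      rw [hf]
      fun_prop
    have hcF : IsCompact (f '' F) := hF.image hfc
    set M : ℝ := sSup (f '' F) with hM
    set μ : ℝ := sInf (f '' F) with hμ
    have hMF : ∀ z ∈ F, f z ≤ M := fun z hz => le_csSup hcF.bddAbove (mem_image_of_mem f hz)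
    have hmF : ∀ z ∈ F, μ ≤ f z := fun z hz => csInf_le hcF.bddBelow (mem_image_of_mem f hz)
    rcases G.eq_empty_or_nonempty with h0 | h0
    · rw [h0, image_empty, Real.sSup_empty, Real.sInf_empty]
      linarith
    have hfin : (f '' (A i : Set (EuclideanSpace ℝ (Fin n)))).Finite :=
      (Finset.finite_toSet _).image f
    set W : ℝ := sSup (f '' (A i : Set (EuclideanSpace ℝ (Fin n)))) -
      sInf (f '' (A i : Set (EuclideanSpace ℝ (Fin n)))) with hW
    have hWlt : W < M - μ := hA i u hu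
    have hWA : ∀ v ∈ A i, ∀ v' ∈ A i, f v - f v' ≤ W := by
      intro v hv v' hv'
      have h1 : f v ≤ sSup (f '' (A i : Set (EuclideanSpace ℝ (Fin n)))) :=
        le_csSup hfin.bddAbove (mem_image_of_mem f hv)
      have h2 : sInf (f '' (A i : Set (EuclideanSpace ℝ (Fin n)))) ≤ f v' :=
        csInf_le hfin.bddBelow (mem_image_of_mem f hv')
      linarith
    have hfsum : ∀ β : EuclideanSpace ℝ (Fin n) → ℝ, f (∑ s ∈ S, β s • s) = ∑ s ∈ S, β s * f s := by
      intro β
      rw [hf]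
      simp only [inner_sum, inner_smul_right]
    have hup : ∀ x ∈ K i, ∃ v ∈ A i, f x ≤ M - 1 / (N:ℝ) * (M - f v) := by
      rintro _ ⟨β, h1, h2, rfl, v, hv, hβ⟩
      refine ⟨v, hv, ?_⟩
      have hvS := hAS i hv
      have e : M - f (∑ s ∈ S, β s • s) = ∑ s ∈ S, β s * (M - f s) := by
        rw [hfsum]
        simp only [mul_sub, Finset.sum_sub_distrib, ← Finset.sum_mul, h2, one_mul]
      have h3 : β v * (M - f v) ≤ ∑ s ∈ S, β s * (M - f s) :=
        Finset.single_le_sum (f := fun s => β s * (M - f s))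
          (fun s hs => mul_nonneg (h1 s hs) (by linarith [hMF s (hSF' s hs)])) hvS
      have h4 : 1 / (N:ℝ) * (M - f v) ≤ β v * (M - f v) :=
        mul_le_mul_of_nonneg_right hβ (by linarith [hMF v (hSF' v hvS)])
      linarith
    have hlo : ∀ x ∈ K i, ∃ v ∈ A i, μ + 1 / (N:ℝ) * (f v - μ) ≤ f x := by
      rintro _ ⟨β, h1, h2, rfl, v, hv, hβ⟩
      refine ⟨v, hv, ?_⟩
      have hvS := hAS i hv
      have e : f (∑ s ∈ S, β s • s) - μ = ∑ s ∈ S, β s * (f s - μ) := by
        rw [hfsum]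
        simp only [mul_sub, Finset.sum_sub_distrib, ← Finset.sum_mul, h2, one_mul]
      have h3 : β v * (f v - μ) ≤ ∑ s ∈ S, β s * (f s - μ) :=
        Finset.single_le_sum (f := fun s => β s * (f s - μ))
          (fun s hs => mul_nonneg (h1 s hs) (by linarith [hmF s (hSF' s hs)])) hvS
      have h4 : 1 / (N:ℝ) * (f v - μ) ≤ β v * (f v - μ) :=
        mul_le_mul_of_nonneg_right hβ (by linarith [hmF v (hSF' v hvS)])
      linarith
    have hN1 : 0 < 1 / (N:ℝ) := by positivity
    have hB : ∀ x ∈ G, ∀ y ∈ G, f x - f y ≤ (M - μ) - 1 / (N:ℝ) * ((M - μ) - W) := by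
      intro x hx y hy
      obtain ⟨v, hv, h1⟩ := hup x (hG hx)
      obtain ⟨v', hv', h2⟩ := hlo y (hG hy)
      have h3 := mul_le_mul_of_nonneg_left (hWA v hv v' hv') hN1.le
      nlinarith
    have h5 := spread_le h0 hB
    have h6 : 0 < 1 / (N:ℝ) * ((M - μ) - W) := mul_pos hN1 (by linarith)
    linarith
  refine ⟨disjointed K, ?_, fun i j hij => disjoint_disjointed K hij,
    fun i => hKsm i _ (disjointed_subset K i)⟩
  rw [iUnion_disjointed]
  apply Subset.antisymm
  · exact iUnion_subset hKF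
  · intro x hx
    rw [← hSF, Finset.mem_convexHull'] at hx
    obtain ⟨β, h1, h2, h3⟩ := hx
    obtain ⟨v, hv, hβ⟩ : ∃ v ∈ S, 1 / (N:ℝ) ≤ β v := by
      by_contra hcon
      push Not at hcon
      have : ∑ s ∈ S, β s < ∑ _s ∈ S, 1 / (N:ℝ) := Finset.sum_lt_sum_of_nonempty hSne hcon
      rw [h2, Finset.sum_const, nsmul_eq_mul, ← hN] at this
      have h7 : (N:ℝ) * (1 / (N:ℝ)) = 1 := by field_simp
      linarith
    obtain ⟨i, hi⟩ := hcov v hv
    exact mem_iUnion.mpr ⟨i, β, h1, h2, h3, v, hi, hβ⟩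

/-- Polytopes with at most `k 2ⁿ` vertices have a partition into at most
`2ⁿ (1 + 1/2 + ... + 1/k)` sets of smaller width. -/
theorem polytope {n : ℕ} {F : Set (EuclideanSpace ℝ (Fin n))} (hFc : Convex ℝ F)
    (hF : IsCompact F) (hFi : (interior F).Nonempty) (k : ℕ)
    (S : Finset (EuclideanSpace ℝ (Fin n))) (hSF : convexHull ℝ (S : Set _) = F)
    (hk : S.card ≤ k * 2 ^ n) :
    ∃ N : ℕ, (N : ℝ) ≤ 2 ^ n * ∑ j ∈ Finset.range k, 1 / ((j : ℝ) + 1) ∧
      ∃ G : Fin N → Set (EuclideanSpace ℝ (Fin n)), (⋃ i, G i) = F ∧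
        (∀ i j, i ≠ j → Disjoint (G i) (G j)) ∧ ∀ i, Smaller (G i) F := by
  classical
  obtain ⟨C, hC⟩ : ∃ C : Set (EuclideanSpace ℝ (Fin n)), C = (2:ℝ)⁻¹ • (F - F) := ⟨_, rfl⟩
  obtain ⟨hCk, hCc, hC0, hCs, hCv, hCF, hFD, hD⟩ := half_facts hF hFc hFi hC
  obtain ⟨hv1, hv3⟩ := vol_facts hFc hC
  have hCt : volume C < ⊤ := hCk.measure_lt_top
  have hV0 : 0 < (volume C).toReal := ENNReal.toReal_pos hCv.ne' hCt.ne
  have hSF' : ∀ s ∈ S, s ∈ F := fun s hs => by
    rw [← hSF]
    exact subset_convexHull ℝ _ hs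
  have hstep : ∀ U : Finset (EuclideanSpace ℝ (Fin n)), U ⊆ S →
      ∃ A : Finset (EuclideanSpace ℝ (Fin n)), A ⊆ U ∧ Smaller (A : Set _) F ∧
        U.card ≤ 2 ^ n * A.card := by
    intro U hU
    obtain ⟨A, hAU, hA, h1⟩ := weighted hFc hF hFi U (fun s hs => hSF' s (hU hs)) (fun _ => 1)
      (fun _ _ => zero_le_one)
    refine ⟨A, hAU, hA, ?_⟩
    have h2 : (volume ((3:ℝ) • F - F)).toReal ≤ 2 ^ n * (volume (F - F)).toReal := by
      rw [hv3, ENNReal.toReal_mul, ENNReal.toReal_pow, ENNReal.toReal_ofNat]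
      apply mul_le_mul_of_nonneg_left _ (by positivity)
      apply ENNReal.toReal_mono _ hFD
      rw [hv1]
      exact (ENNReal.mul_lt_top (by simp) hCt).ne
    have h3 : 0 < (volume (F - F)).toReal := by
      rw [hv1, ENNReal.toReal_mul, ENNReal.toReal_pow, ENNReal.toReal_ofNat]
      positivity
    simp only [Finset.sum_const, nsmul_eq_mul, mul_one] at h1
    have h4 : (volume (F - F)).toReal * (U.card : ℝ) ≤
        (volume (F - F)).toReal * (2 ^ n * (A.card : ℝ)) := by
      calc (volume (F - F)).toReal * (U.card : ℝ)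
          ≤ (volume ((3:ℝ) • F - F)).toReal * (A.card : ℝ) := h1
        _ ≤ 2 ^ n * (volume (F - F)).toReal * (A.card : ℝ) := by gcongr
        _ = (volume (F - F)).toReal * (2 ^ n * (A.card : ℝ)) := by ring
    have h5 := le_of_mul_le_mul_left h4 h3
    exact_mod_cast h5
  obtain ⟨m, A, hm, hA1, hA2, hA3⟩ := greedy_parts (N := 2 ^ n)
    (P := fun A => Smaller (A : Set (EuclideanSpace ℝ (Fin n))) F)
    (fun A B hAB hB => Smaller.mono (Finset.coe_subset.mpr hAB)
      (Finset.finite_toSet B).isBounded hF hFi hB) hstep S.card S (Finset.Subset.refl _) rfl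
  obtain ⟨G, hG⟩ := hull_parts hSF hF hFi A hA1 hA2 hA3
  refine ⟨m, ?_, G, hG⟩
  refine hm.trans ?_
  have h6 := sum_blocks (N := 2 ^ n) (by positivity) k
  push_cast at h6
  rw [← h6]
  apply Finset.sum_le_sum_of_subset_of_nonneg
  · intro i hi
    rw [Finset.mem_range] at hi ⊢
    omega
  · intro i _ _
    positivity

end Pool.Agent.H11.SWF
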